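import Mathlib

set_option autoImplicit false

namespace Pool.Agent.Helper492.Pinch

open Matrix Finset

variable {n : Type*} [Fintype n] [DecidableEq n]

/-- positive part squared -/
noncomputable def g (x : ℝ) : ℝ := (max x 0) ^ 2

/-- positive part cubed -/
noncomputable def f (x : ℝ) : ℝ := (max x 0) ^ 3

/-- scalar (real) version of the key inequality -/
theorem key_real (l' l w x : ℝ) :
    (max l' 0 + max l 0) * (((l' - l) * w) ^ 2 - x ^ 2)
      - (max (-l') 0 + max (-l) 0) * ((l' - l) * w - x) ^ 2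
      ≤ (g l' - g l) * (l' - l) * w ^ 2 := by
  unfold g
  rcases le_total 0 l' with h1 | h1 <;> rcases le_total 0 l with h2 | h2
  · rw [max_eq_left h1, max_eq_left h2, max_eq_right (by linarith : -l' ≤ 0),
      max_eq_right (by linarith : -l ≤ 0)]
    nlinarith [mul_nonneg (add_nonneg h1 h2) (sq_nonneg x)]
  · rw [max_eq_left h1, max_eq_right h2, max_eq_right (by linarith : -l' ≤ 0),
      max_eq_left (by linarith : (0:ℝ) ≤ -l)]
    nlinarith [mul_nonneg (by linarith : 0 ≤ l' - l) (sq_nonneg (x + l * w))]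
  · rw [max_eq_right h1, max_eq_left h2, max_eq_left (by linarith : (0:ℝ) ≤ -l'),
      max_eq_right (by linarith : -l ≤ 0)]
    nlinarith [mul_nonneg (by linarith : 0 ≤ l - l') (sq_nonneg (x - l' * w))]
  · rw [max_eq_right h1, max_eq_right h2, max_eq_left (by linarith : (0:ℝ) ≤ -l'),
      max_eq_left (by linarith : (0:ℝ) ≤ -l)]
    nlinarith [mul_nonneg (by linarith : 0 ≤ -l' + -l) (sq_nonneg ((l' - l) * w - x))]

/-- complex version of the key inequality -/
theorem key_complex (l' l : ℝ) (w x : ℂ) :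
    (max l' 0 + max l 0) * (‖((l' - l : ℝ) : ℂ) * w‖ ^ 2 - ‖x‖ ^ 2)
      - (max (-l') 0 + max (-l) 0) * ‖((l' - l : ℝ) : ℂ) * w - x‖ ^ 2
      ≤ (g l' - g l) * (l' - l) * ‖w‖ ^ 2 := by
  have e : ∀ y : ℂ, ‖y‖ ^ 2 = y.re ^ 2 + y.im ^ 2 := by
    intro y
    rw [← Complex.normSq_eq_norm_sq, Complex.normSq_apply]; ring
  rw [e, e, e, e]
  have h1 := key_real l' l w.re x.re
  have h2 := key_real l' l w.im x.im
  simp only [Complex.mul_re, Complex.mul_im, Complex.ofReal_re, Complex.ofReal_im, Complex.sub_re,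
    Complex.sub_im, zero_mul, sub_zero, add_zero]
  nlinarith [h1, h2]

/-- scalar inequality closing the pinching argument -/
theorem key_tau (p m p' m' : ℝ) (hp : 0 ≤ p) (hm : 0 ≤ m) (hp' : 0 ≤ p') (hm' : 0 ≤ m') :
    ∃ τ : ℝ, ((p' - m') - (p - m)) * (g (p' - m') - g (p - m)) ≤
      ((p' - m') - (p - m)) ^ 2 * ((1 - (1 - τ) ^ 2) * (p' + p) - τ ^ 2 * (m' + m)) := by
  unfold g
  rcases le_total 0 (p' - m') with h1 | h1 <;> rcases le_total 0 (p - m) with h2 | h2
  · refine ⟨1, ?_⟩
    rw [max_eq_left h1, max_eq_left h2]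
    apply le_of_eq; ring
  · rw [max_eq_left h1, max_eq_right h2]
    rcases eq_or_lt_of_le h1 with h3 | h3
    · refine ⟨0, ?_⟩
      rw [← h3]; ring_nf; rfl
    · have hz : 0 < (p' - m') - (p - m) := by linarith
      refine ⟨(p' - m') / ((p' - m') - (p - m)), ?_⟩
      set x' := p' - m' with hx'
      set z := x' - (p - m) with hzdef
      have e : z ^ 2 * ((1 - (1 - x' / z) ^ 2) * (p' + p) - (x' / z) ^ 2 * (m' + m))
          = 2 * z * x' * (p' + p) - x' ^ 2 * (p' + p + m' + m) := by
        field_simp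
        ring
      rw [e]
      have e2 : m' = p' - x' := by rw [hx']; ring
      have e3 : p - m = x' - z := by rw [hzdef]; ring
      nlinarith [mul_nonneg (mul_nonneg h3.le (by linarith : 0 ≤ m - p)) (by linarith : 0 ≤ p + m')]
  · rw [max_eq_right h1, max_eq_left h2]
    rcases eq_or_lt_of_le h2 with h3 | h3
    · refine ⟨0, ?_⟩
      rw [← h3]; ring_nf; rfl
    · have hz : 0 < (p - m) - (p' - m') := by linarith
      refine ⟨(p - m) / ((p - m) - (p' - m')), ?_⟩
      set x := p - m with hx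
      set z := x - (p' - m') with hzdef
      have e : (p' - m' - x) ^ 2 * ((1 - (1 - x / z) ^ 2) * (p' + p) - (x / z) ^ 2 * (m' + m))
          = 2 * z * x * (p' + p) - x ^ 2 * (p' + p + m' + m) := by
        have : p' - m' - x = - z := by rw [hzdef]; ring
        rw [this]
        field_simp
        ring
      rw [e]
      nlinarith [mul_nonneg (mul_nonneg h3.le (by linarith : 0 ≤ m' - p')) (by linarith : 0 ≤ p' + m)]
  · refine ⟨0, ?_⟩
    rw [max_eq_right h1, max_eq_right h2]
    apply le_of_eq; ring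

end Pool.Agent.Helper492.Pinch
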