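import Pool.Agent.Helper492.PinchA

set_option autoImplicit false
set_option linter.unusedSectionVars false

namespace Pool.Agent.Helper492.Pinch

open Matrix Finset

variable {n : Type*} [Fintype n] [DecidableEq n]

/-- complex diagonal matrix with real entries -/
noncomputable abbrev dR (r : n → ℝ) : Matrix n n ℂ := diagonal (fun i => (r i : ℂ))

/-- diagonal entries of `U diag(α) Uᴴ` -/
noncomputable def dg (U : Matrix n n ℂ) (α : n → ℝ) (i : n) : ℝ := ∑ b, α b * ‖U i b‖ ^ 2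

theorem mul_star_self (x : ℂ) : x * star x = ((‖x‖ ^ 2 : ℝ) : ℂ) := by
  rw [Complex.star_def, Complex.mul_conj, Complex.normSq_eq_norm_sq]

theorem star_mul_self' (x : ℂ) : star x * x = ((‖x‖ ^ 2 : ℝ) : ℂ) := by
  rw [mul_comm, mul_star_self]

theorem normsum (M : Matrix n n ℂ) (a : n) :
    ((∑ b, ‖M a b‖ ^ 2 : ℝ) : ℂ) = (M * Mᴴ) a a := by
  rw [Matrix.mul_apply, Complex.ofReal_sum]
  refine Finset.sum_congr rfl fun b _ => ?_
  rw [conjTranspose_apply, mul_star_self]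

theorem normsum' (M : Matrix n n ℂ) (b : n) :
    ((∑ a, ‖M a b‖ ^ 2 : ℝ) : ℂ) = (Mᴴ * M) b b := by
  rw [Matrix.mul_apply, Complex.ofReal_sum]
  refine Finset.sum_congr rfl fun a _ => ?_
  rw [conjTranspose_apply, star_mul_self']

theorem diagform (V : Matrix n n ℂ) (r : n → ℝ) (a : n) :
    (Vᴴ * dR r * V) a a = ((∑ i, r i * ‖V i a‖ ^ 2 : ℝ) : ℂ) := by
  rw [Matrix.mul_apply, Complex.ofReal_sum]
  refine Finset.sum_congr rfl fun i _ => ?_
  rw [Matrix.mul_diagonal, conjTranspose_apply]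
  calc star (V i a) * (r i : ℂ) * V i a = (r i : ℂ) * (star (V i a) * V i a) := by ring
    _ = _ := by rw [star_mul_self']; push_cast; ring

theorem dg_eq (U : Matrix n n ℂ) (α : n → ℝ) (i : n) :
    (U * dR α * Uᴴ) i i = (dg U α i : ℂ) := by
  rw [Matrix.mul_apply, dg, Complex.ofReal_sum]
  refine Finset.sum_congr rfl fun b _ => ?_
  rw [Matrix.mul_diagonal, conjTranspose_apply]
  calc U i b * (α b : ℂ) * star (U i b) = (α b : ℂ) * (U i b * star (U i b)) := by ring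
    _ = _ := by rw [mul_star_self]; push_cast; ring

theorem dR_herm (r : n → ℝ) : (dR r)ᴴ = dR r := by
  rw [dR, diagonal_conjTranspose]
  congr 1
  funext i
  simp

theorem dR_mul (r s : n → ℝ) : dR r * dR s = dR (fun i => r i * s i) := by
  rw [dR, dR, diagonal_mul_diagonal]
  congr 1
  funext i
  push_cast; rfl

theorem prow {U V : Matrix n n ℂ} (hU : U * Uᴴ = 1) (r : n → ℝ) (a : n) :
    ∑ b, ‖(Vᴴ * dR r * U) a b‖ ^ 2 = ∑ i, r i ^ 2 * ‖V i a‖ ^ 2 := by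
  have h := normsum (Vᴴ * dR r * U) a
  have e : (Vᴴ * dR r * U) * (Vᴴ * dR r * U)ᴴ = Vᴴ * dR (fun i => r i ^ 2) * V := by
    rw [conjTranspose_mul, conjTranspose_mul, conjTranspose_conjTranspose, dR_herm]
    calc Vᴴ * dR r * U * (Uᴴ * (dR r * V)) = Vᴴ * (dR r * (U * Uᴴ) * dR r) * V := by
          simp only [Matrix.mul_assoc]
      _ = _ := by
          rw [hU, Matrix.mul_one, dR_mul]
          congr 3
          funext i; ring_nf
  rw [e, diagform] at h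
  exact_mod_cast h

theorem pcol {U V : Matrix n n ℂ} (hV : V * Vᴴ = 1) (r : n → ℝ) (b : n) :
    ∑ a, ‖(Vᴴ * dR r * U) a b‖ ^ 2 = ∑ i, r i ^ 2 * ‖U i b‖ ^ 2 := by
  have h := normsum' (Vᴴ * dR r * U) b
  have e : (Vᴴ * dR r * U)ᴴ * (Vᴴ * dR r * U) = Uᴴ * dR (fun i => r i ^ 2) * U := by
    rw [conjTranspose_mul, conjTranspose_mul, conjTranspose_conjTranspose, dR_herm]
    calc Uᴴ * (dR r * V) * (Vᴴ * dR r * U) = Uᴴ * (dR r * (V * Vᴴ) * dR r) * U := by
          simp only [Matrix.mul_assoc]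
      _ = _ := by
          rw [hV, Matrix.mul_one, dR_mul]
          congr 3
          funext i; ring_nf
  rw [e, diagform] at h
  exact_mod_cast h

/-- Data: two hermitian matrices given by diagonalisations, with diagonal difference. -/
structure Pair (U V : Matrix n n ℂ) (l l' z : n → ℝ) : Prop where
  hU : U * Uᴴ = 1
  hU' : Uᴴ * U = 1
  hV : V * Vᴴ = 1
  hV' : Vᴴ * V = 1
  diff : V * dR l' * Vᴴ - U * dR l * Uᴴ = dR z

namespace Pair

variable {U V : Matrix n n ℂ} {l l' z : n → ℝ}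

theorem zeta (h : Pair U V l l' z) (a b : n) :
    (Vᴴ * dR z * U) a b = ((l' a - l b : ℝ) : ℂ) * (Vᴴ * U) a b := by
  have e : Vᴴ * dR z * U = dR l' * (Vᴴ * U) - (Vᴴ * U) * dR l := by
    rw [← h.diff, Matrix.mul_sub, Matrix.sub_mul]
    congr 1
    · calc Vᴴ * (V * dR l' * Vᴴ) * U = (Vᴴ * V) * dR l' * (Vᴴ * U) := by
            simp only [Matrix.mul_assoc]
        _ = _ := by rw [h.hV', Matrix.one_mul]
    · calc Vᴴ * (U * dR l * Uᴴ) * U = (Vᴴ * U) * dR l * (Uᴴ * U) := by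
            simp only [Matrix.mul_assoc]
        _ = _ := by rw [h.hU', Matrix.mul_one]
  rw [e, Matrix.sub_apply, Matrix.diagonal_mul, Matrix.mul_diagonal]
  push_cast; ring

theorem sumb (h : Pair U V l l' z) (a : n) :
    ∑ b, (l' a - l b) * ‖(Vᴴ * U) a b‖ ^ 2 = ∑ i, z i * ‖V i a‖ ^ 2 := by
  have h1 : (Vᴴ * dR z * U) * (Vᴴ * U)ᴴ = Vᴴ * dR z * V := by
    rw [conjTranspose_mul, conjTranspose_conjTranspose]
    calc Vᴴ * dR z * U * (Uᴴ * V) = Vᴴ * dR z * (U * Uᴴ) * V := by simp only [Matrix.mul_assoc]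
      _ = _ := by rw [h.hU, Matrix.mul_one]
  have h2 := congrFun (congrFun h1 a) a
  rw [diagform, Matrix.mul_apply] at h2
  have h3 : ((∑ b, (l' a - l b) * ‖(Vᴴ * U) a b‖ ^ 2 : ℝ) : ℂ) =
      ((∑ i, z i * ‖V i a‖ ^ 2 : ℝ) : ℂ) := by
    rw [← h2, Complex.ofReal_sum]
    refine Finset.sum_congr rfl fun b _ => ?_
    rw [h.zeta, conjTranspose_apply, mul_assoc, mul_star_self]
    push_cast; ring
  exact_mod_cast h3

theorem suma (h : Pair U V l l' z) (b : n) :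
    ∑ a, (l' a - l b) * ‖(Vᴴ * U) a b‖ ^ 2 = ∑ i, z i * ‖U i b‖ ^ 2 := by
  have h1 : (Vᴴ * U)ᴴ * (Vᴴ * dR z * U) = Uᴴ * dR z * U := by
    rw [conjTranspose_mul, conjTranspose_conjTranspose]
    calc Uᴴ * V * (Vᴴ * dR z * U) = Uᴴ * (V * Vᴴ) * dR z * U := by simp only [Matrix.mul_assoc]
      _ = _ := by rw [h.hV, Matrix.mul_one]
  have h2 := congrFun (congrFun h1 b) b
  rw [diagform, Matrix.mul_apply] at h2
  have h3 : ((∑ a, (l' a - l b) * ‖(Vᴴ * U) a b‖ ^ 2 : ℝ) : ℂ) =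
      ((∑ i, z i * ‖U i b‖ ^ 2 : ℝ) : ℂ) := by
    rw [← h2, Complex.ofReal_sum]
    refine Finset.sum_congr rfl fun a _ => ?_
    rw [h.zeta, conjTranspose_apply]
    calc (((l' a - l b) * ‖(Vᴴ * U) a b‖ ^ 2 : ℝ) : ℂ)
        = ((l' a - l b : ℝ) : ℂ) * (star ((Vᴴ * U) a b) * (Vᴴ * U) a b) := by
          rw [star_mul_self']; push_cast; ring
      _ = _ := by ring
  exact_mod_cast h3

theorem diag (h : Pair U V l l' z) (i : n) : z i = dg V l' i - dg U l i := by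
  have h1 := congrFun (congrFun h.diff i) i
  have h2 : (dR z : Matrix n n ℂ) i i = (z i : ℂ) := Matrix.diagonal_apply_eq _ _
  rw [Matrix.sub_apply, dg_eq, dg_eq, h2] at h1
  exact_mod_cast h1.symm

/-- monotone form identity -/
theorem ident (h : Pair U V l l' z) (φ : ℝ → ℝ) :
    ∑ a, ∑ b, (φ (l' a) - φ (l b)) * (l' a - l b) * ‖(Vᴴ * U) a b‖ ^ 2
      = ∑ i, z i * (dg V (fun a => φ (l' a)) i - dg U (fun b => φ (l b)) i) := by
  have h1 : ∑ a, ∑ b, (φ (l' a) - φ (l b)) * (l' a - l b) * ‖(Vᴴ * U) a b‖ ^ 2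
      = ∑ a, φ (l' a) * ∑ b, (l' a - l b) * ‖(Vᴴ * U) a b‖ ^ 2
        - ∑ b, φ (l b) * ∑ a, (l' a - l b) * ‖(Vᴴ * U) a b‖ ^ 2 := by
    have e2 : ∑ b, φ (l b) * ∑ a, (l' a - l b) * ‖(Vᴴ * U) a b‖ ^ 2
        = ∑ a, ∑ b, φ (l b) * ((l' a - l b) * ‖(Vᴴ * U) a b‖ ^ 2) := by
      rw [Finset.sum_comm]
      refine Finset.sum_congr rfl fun b _ => ?_
      rw [Finset.mul_sum]
    rw [e2, ← Finset.sum_sub_distrib]
    refine Finset.sum_congr rfl fun a _ => ?_
    rw [Finset.mul_sum, ← Finset.sum_sub_distrib]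
    refine Finset.sum_congr rfl fun b _ => ?_
    ring
  rw [h1]
  simp_rw [h.sumb, h.suma]
  simp only [Finset.mul_sum, dg]
  rw [Finset.sum_comm, Finset.sum_comm (f := fun b i => φ (l b) * (z i * ‖U i b‖ ^ 2)),
    ← Finset.sum_sub_distrib]
  refine Finset.sum_congr rfl fun i _ => ?_
  rw [mul_sub, Finset.mul_sum, Finset.mul_sum]
  congr 1
  · refine Finset.sum_congr rfl fun a _ => ?_
    ring
  · refine Finset.sum_congr rfl fun a _ => ?_
    ring

theorem ksum (h : Pair U V l l' z) (τ : n → ℝ) :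
    ∑ i, z i ^ 2 * ((1 - (1 - τ i) ^ 2) *
        (dg V (fun a => max (l' a) 0) i + dg U (fun b => max (l b) 0) i)
        - τ i ^ 2 * (dg V (fun a => max (-l' a) 0) i + dg U (fun b => max (-l b) 0) i))
      ≤ ∑ i, z i * (dg V (fun a => g (l' a)) i - dg U (fun b => g (l b)) i) := by
  rw [← h.ident g]
  set ξ : Matrix n n ℂ := Vᴴ * dR (fun i => (1 - τ i) * z i) * U with hξ
  have hd : ∀ a b, (Vᴴ * dR z * U) a b - ξ a b = (Vᴴ * dR (fun i => τ i * z i) * U) a b := by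
    intro a b
    have : Vᴴ * dR z * U - ξ = Vᴴ * dR (fun i => τ i * z i) * U := by
      rw [hξ, ← Matrix.sub_mul, ← Matrix.mul_sub]
      congr 2
      rw [dR, dR, diagonal_sub]
      congr 1
      funext i
      push_cast; ring
    rw [← this, Matrix.sub_apply]
  have hk : ∀ a b, (max (l' a) 0 + max (l b) 0) *
      (‖(Vᴴ * dR z * U) a b‖ ^ 2 - ‖ξ a b‖ ^ 2)
      - (max (-l' a) 0 + max (-l b) 0) * ‖(Vᴴ * dR (fun i => τ i * z i) * U) a b‖ ^ 2
      ≤ (g (l' a) - g (l b)) * (l' a - l b) * ‖(Vᴴ * U) a b‖ ^ 2 := by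
    intro a b
    have := key_complex (l' a) (l b) ((Vᴴ * U) a b) (ξ a b)
    rw [← h.zeta, hd] at this
    exact this
  refine le_trans (le_of_eq ?_) (Finset.sum_le_sum fun a _ => Finset.sum_le_sum fun b _ => hk a b)
  have hrow : ∀ (c : n → ℝ) (r : n → ℝ), ∑ a, ∑ b, c a * ‖(Vᴴ * dR r * U) a b‖ ^ 2
      = ∑ i, r i ^ 2 * dg V c i := by
    intro c r
    simp_rw [← Finset.mul_sum]
    simp_rw [prow h.hU]
    simp only [dg, Finset.mul_sum]
    rw [Finset.sum_comm]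
    refine Finset.sum_congr rfl fun i _ => Finset.sum_congr rfl fun a _ => ?_
    ring
  have hcol : ∀ (c : n → ℝ) (r : n → ℝ), ∑ a, ∑ b, c b * ‖(Vᴴ * dR r * U) a b‖ ^ 2
      = ∑ i, r i ^ 2 * dg U c i := by
    intro c r
    rw [Finset.sum_comm]
    simp_rw [← Finset.mul_sum]
    simp_rw [pcol h.hV]
    simp only [dg, Finset.mul_sum]
    rw [Finset.sum_comm]
    refine Finset.sum_congr rfl fun i _ => Finset.sum_congr rfl fun a _ => ?_
    ring
  have hsplit : ∑ a, ∑ b, ((max (l' a) 0 + max (l b) 0) *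
      (‖(Vᴴ * dR z * U) a b‖ ^ 2 - ‖ξ a b‖ ^ 2)
      - (max (-l' a) 0 + max (-l b) 0) * ‖(Vᴴ * dR (fun i => τ i * z i) * U) a b‖ ^ 2)
      = (∑ a, ∑ b, max (l' a) 0 * ‖(Vᴴ * dR z * U) a b‖ ^ 2
        + ∑ a, ∑ b, max (l b) 0 * ‖(Vᴴ * dR z * U) a b‖ ^ 2)
        - (∑ a, ∑ b, max (l' a) 0 * ‖(Vᴴ * dR (fun i => (1 - τ i) * z i) * U) a b‖ ^ 2
        + ∑ a, ∑ b, max (l b) 0 * ‖(Vᴴ * dR (fun i => (1 - τ i) * z i) * U) a b‖ ^ 2)
        - (∑ a, ∑ b, max (-l' a) 0 * ‖(Vᴴ * dR (fun i => τ i * z i) * U) a b‖ ^ 2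
        + ∑ a, ∑ b, max (-l b) 0 * ‖(Vᴴ * dR (fun i => τ i * z i) * U) a b‖ ^ 2) := by
    simp only [← Finset.sum_add_distrib, ← Finset.sum_sub_distrib]
    refine Finset.sum_congr rfl fun a _ => Finset.sum_congr rfl fun b _ => ?_
    rw [hξ]
    ring
  rw [hsplit, hrow (fun a => max (l' a) 0), hcol (fun b => max (l b) 0),
    hrow (fun a => max (l' a) 0), hcol (fun b => max (l b) 0),
    hrow (fun a => max (-l' a) 0), hcol (fun b => max (-l b) 0)]
  simp only [← Finset.sum_add_distrib, ← Finset.sum_sub_distrib]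
  refine Finset.sum_congr rfl fun i _ => ?_
  ring

theorem dg_nonneg (W : Matrix n n ℂ) {c : n → ℝ} (hc : ∀ b, 0 ≤ c b) (i : n) : 0 ≤ dg W c i :=
  Finset.sum_nonneg fun b _ => mul_nonneg (hc b) (by positivity)

theorem dg_split (W : Matrix n n ℂ) (c : n → ℝ) (i : n) :
    dg W c i = dg W (fun b => max (c b) 0) i - dg W (fun b => max (-c b) 0) i := by
  unfold dg
  rw [← Finset.sum_sub_distrib]
  refine Finset.sum_congr rfl fun b _ => ?_
  have : c b = max (c b) 0 - max (-c b) 0 := by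
    rcases le_total 0 (c b) with h | h
    · rw [max_eq_left h, max_eq_right (by linarith : -c b ≤ 0)]; ring
    · rw [max_eq_right h, max_eq_left (by linarith : (0:ℝ) ≤ -c b)]; ring
  nlinarith [this]

/-- **The monotonicity pinching inequality.** -/
theorem pinch2 (h : Pair U V l l' z) :
    ∑ i, z i * (g (dg V l' i) - g (dg U l i))
      ≤ ∑ i, z i * (dg V (fun a => g (l' a)) i - dg U (fun b => g (l b)) i) := by
  have hτ : ∀ i, ∃ τ : ℝ, z i * (g (dg V l' i) - g (dg U l i)) ≤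
      z i ^ 2 * ((1 - (1 - τ) ^ 2) *
        (dg V (fun a => max (l' a) 0) i + dg U (fun b => max (l b) 0) i)
        - τ ^ 2 * (dg V (fun a => max (-l' a) 0) i + dg U (fun b => max (-l b) 0) i)) := by
    intro i
    obtain ⟨τ, hτ⟩ := key_tau (dg U (fun b => max (l b) 0) i) (dg U (fun b => max (-l b) 0) i)
      (dg V (fun a => max (l' a) 0) i) (dg V (fun a => max (-l' a) 0) i)
      (dg_nonneg U (fun b => le_max_right _ _) i) (dg_nonneg U (fun b => le_max_right _ _) i)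
      (dg_nonneg V (fun b => le_max_right _ _) i) (dg_nonneg V (fun b => le_max_right _ _) i)
    rw [← dg_split, ← dg_split, ← h.diag] at hτ
    exact ⟨τ, hτ⟩
  choose τ hτ using hτ
  exact (Finset.sum_le_sum fun i _ => hτ i).trans (h.ksum τ)

end Pair

end Pool.Agent.Helper492.Pinch
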