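import Pool.Agent.Helper492.PinchB

set_option autoImplicit false
set_option linter.unusedSectionVars false

namespace Pool.Agent.Helper492.Pinch

open Matrix Finset

variable {n : Type*} [Fintype n] [DecidableEq n]

/-- tangent inequality for `f = (x)_+^3`, `f' = 3 g` -/
theorem tangent (x y : ℝ) : 3 * g x * (y - x) ≤ f y - f x := by
  unfold f g
  rcases le_total 0 x with h1 | h1 <;> rcases le_total 0 y with h2 | h2
  · rw [max_eq_left h1, max_eq_left h2]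
    nlinarith [mul_nonneg (by linarith : 0 ≤ y + 2 * x) (sq_nonneg (y - x))]
  · rw [max_eq_left h1, max_eq_right h2]
    have h3 := pow_nonneg h1 3
    have h4 := mul_nonneg (sq_nonneg x) (by linarith : 0 ≤ -y)
    nlinarith [h3, h4]
  · rw [max_eq_right h1, max_eq_left h2]
    have h3 := pow_nonneg h2 3
    nlinarith [h3]
  · rw [max_eq_right h1, max_eq_right h2]
    simp

namespace Pair

variable {U V : Matrix n n ℂ} {l l' z : n → ℝ}

theorem wrow (h : Pair U V l l' z) (a : n) : ∑ b, ‖(Vᴴ * U) a b‖ ^ 2 = 1 := by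
  have h1 := normsum (Vᴴ * U) a
  have e : (Vᴴ * U) * (Vᴴ * U)ᴴ = 1 := by
    rw [conjTranspose_mul, conjTranspose_conjTranspose]
    calc Vᴴ * U * (Uᴴ * V) = Vᴴ * (U * Uᴴ) * V := by simp only [Matrix.mul_assoc]
      _ = _ := by rw [h.hU, Matrix.mul_one, h.hV']
  rw [e, Matrix.one_apply_eq] at h1
  exact_mod_cast h1

theorem wcol (h : Pair U V l l' z) (b : n) : ∑ a, ‖(Vᴴ * U) a b‖ ^ 2 = 1 := by
  have h1 := normsum' (Vᴴ * U) b
  have e : (Vᴴ * U)ᴴ * (Vᴴ * U) = 1 := by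
    rw [conjTranspose_mul, conjTranspose_conjTranspose]
    calc Uᴴ * V * (Vᴴ * U) = Uᴴ * (V * Vᴴ) * U := by simp only [Matrix.mul_assoc]
      _ = _ := by rw [h.hV, Matrix.mul_one, h.hU']
  rw [e, Matrix.one_apply_eq] at h1
  exact_mod_cast h1

/-- Klein's inequality for a function `φ` with subgradient `ψ`. -/
theorem klein (h : Pair U V l l' z) (φ ψ : ℝ → ℝ) (ht : ∀ x y, ψ x * (y - x) ≤ φ y - φ x) :
    ∑ i, z i * dg U (fun b => ψ (l b)) i ≤ ∑ a, φ (l' a) - ∑ b, φ (l b) := by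
  have h1 : ∑ a, φ (l' a) - ∑ b, φ (l b)
      = ∑ a, ∑ b, (φ (l' a) - φ (l b)) * ‖(Vᴴ * U) a b‖ ^ 2 := by
    have e1 : ∑ a, φ (l' a) = ∑ a, ∑ b, φ (l' a) * ‖(Vᴴ * U) a b‖ ^ 2 := by
      refine Finset.sum_congr rfl fun a _ => ?_
      rw [← Finset.mul_sum, h.wrow, mul_one]
    have e2 : ∑ b, φ (l b) = ∑ a, ∑ b, φ (l b) * ‖(Vᴴ * U) a b‖ ^ 2 := by
      rw [Finset.sum_comm]
      refine Finset.sum_congr rfl fun b _ => ?_
      rw [← Finset.mul_sum, h.wcol, mul_one]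
    rw [e1, e2]
    simp only [← Finset.sum_sub_distrib]
    refine Finset.sum_congr rfl fun a _ => Finset.sum_congr rfl fun b _ => ?_
    ring
  have h2 : ∑ i, z i * dg U (fun b => ψ (l b)) i
      = ∑ a, ∑ b, (ψ (l b) * (l' a - l b)) * ‖(Vᴴ * U) a b‖ ^ 2 := by
    have e1 : ∑ i, z i * dg U (fun b => ψ (l b)) i = ∑ b, ψ (l b) * ∑ i, z i * ‖U i b‖ ^ 2 := by
      simp only [dg, Finset.mul_sum]
      rw [Finset.sum_comm]
      refine Finset.sum_congr rfl fun b _ => Finset.sum_congr rfl fun i _ => ?_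
      ring
    rw [e1, Finset.sum_comm]
    refine Finset.sum_congr rfl fun b _ => ?_
    rw [← h.suma, Finset.mul_sum]
    refine Finset.sum_congr rfl fun a _ => ?_
    ring
  rw [h1, h2]
  refine Finset.sum_le_sum fun a _ => Finset.sum_le_sum fun b _ => ?_
  exact mul_le_mul_of_nonneg_right (ht _ _) (by positivity)

end Pair

/-- Abstract Riemann sum lemma. -/
theorem riemann (φ γ ρ ρ' : ℝ → ℝ)
    (h1 : ∀ s t, 0 ≤ s → s ≤ t → (t - s) * γ s ≤ φ t - φ s)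
    (h2 : ∀ t, 0 ≤ t → ρ' t - ρ' 0 ≤ γ t - γ 0)
    (h3 : ∀ s t, 0 ≤ s → s ≤ t → ρ t - ρ s ≤ (t - s) * ρ' t) :
    ρ 1 - ρ 0 - ρ' 0 ≤ φ 1 - φ 0 - γ 0 := by
  have key : ∀ N : ℕ, 0 < N → ρ 1 - ρ 0 - ρ' 0 ≤ φ 1 - φ 0 - γ 0 + (ρ' 1 - ρ' 0) / N := by
    intro N hN
    have hN' : (0:ℝ) < N := by exact_mod_cast hN
    have hstep : ∀ k : ℕ, (((k + 1 : ℕ) : ℝ) / N - (k : ℝ) / N) = 1 / N := by
      intro k; field_simp; push_cast; ring
    have a1 : ∑ k ∈ range N, (1 / (N:ℝ)) * γ ((k:ℝ) / N) ≤ φ 1 - φ 0 := by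
      have : ∑ k ∈ range N, (φ (((k + 1 : ℕ) : ℝ) / N) - φ ((k : ℝ) / N)) = φ 1 - φ 0 := by
        rw [Finset.sum_range_sub (fun k : ℕ => φ ((k : ℝ) / N))]
        rw [div_self hN'.ne']; simp
      rw [← this]
      refine Finset.sum_le_sum fun k _ => ?_
      rw [← hstep k]
      refine h1 _ _ (by positivity) ?_
      have := hstep k
      have : 0 < 1 / (N:ℝ) := by positivity
      linarith [hstep k]
    have a2 : ρ 1 - ρ 0 ≤ ∑ k ∈ range N, (1 / (N:ℝ)) * ρ' (((k + 1 : ℕ) : ℝ) / N) := by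
      have : ∑ k ∈ range N, (ρ (((k + 1 : ℕ) : ℝ) / N) - ρ ((k : ℝ) / N)) = ρ 1 - ρ 0 := by
        rw [Finset.sum_range_sub (fun k : ℕ => ρ ((k : ℝ) / N))]
        rw [div_self hN'.ne']; simp
      rw [← this]
      refine Finset.sum_le_sum fun k _ => ?_
      rw [← hstep k]
      refine h3 _ _ (by positivity) ?_
      have : 0 < 1 / (N:ℝ) := by positivity
      linarith [hstep k]
    have a3 : ∑ k ∈ range N, (1 / (N:ℝ)) * ρ' (((k + 1 : ℕ) : ℝ) / N)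
        = ∑ k ∈ range N, (1 / (N:ℝ)) * ρ' ((k:ℝ) / N) + (ρ' 1 - ρ' 0) / N := by
      have : ∑ k ∈ range N, ((1 / (N:ℝ)) * ρ' (((k + 1 : ℕ) : ℝ) / N)
          - (1 / (N:ℝ)) * ρ' ((k : ℝ) / N)) = (ρ' 1 - ρ' 0) / N := by
        rw [Finset.sum_range_sub (fun k : ℕ => (1 / (N:ℝ)) * ρ' ((k : ℝ) / N))]
        rw [div_self hN'.ne']
        simp only [Nat.cast_zero, zero_div]
        ring
      rw [Finset.sum_sub_distrib] at this
      linarith
    have a4 : ∑ k ∈ range N, (1 / (N:ℝ)) * (ρ' ((k:ℝ) / N) - ρ' 0)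
        ≤ ∑ k ∈ range N, (1 / (N:ℝ)) * (γ ((k:ℝ) / N) - γ 0) := by
      refine Finset.sum_le_sum fun k _ => ?_
      exact mul_le_mul_of_nonneg_left (h2 _ (by positivity)) (by positivity)
    have a5 : ∀ c : ℝ, ∀ η : ℝ → ℝ, ∑ k ∈ range N, (1 / (N:ℝ)) * (η ((k:ℝ) / N) - c)
        = ∑ k ∈ range N, (1 / (N:ℝ)) * η ((k:ℝ) / N) - c := by
      intro c η
      simp only [mul_sub, Finset.sum_sub_distrib, Finset.sum_const, card_range, nsmul_eq_mul]
      have : (N:ℝ) * (1 / N * c) = c := by field_simp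
      rw [this]
    rw [a5 (ρ' 0) ρ', a5 (γ 0) γ] at a4
    linarith
  by_contra hcon
  push Not at hcon
  set δ := ρ 1 - ρ 0 - ρ' 0 - (φ 1 - φ 0 - γ 0) with hδ
  have hδ0 : 0 < δ := by linarith
  obtain ⟨N, hN⟩ := exists_nat_gt (|ρ' 1 - ρ' 0| / δ)
  have hN0 : 0 < N := by
    rcases Nat.eq_zero_or_pos N with h | h
    · subst h
      simp only [Nat.cast_zero] at hN
      have : 0 ≤ |ρ' 1 - ρ' 0| / δ := by positivity
      linarith
    · exact h
  have hN' : (0:ℝ) < N := by exact_mod_cast hN0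
  have h4 := key N hN0
  rw [div_lt_iff₀ hδ0] at hN
  have h5 : (ρ' 1 - ρ' 0) / N < δ := by
    rw [div_lt_iff₀ hN']
    have := le_abs_self (ρ' 1 - ρ' 0)
    linarith
  linarith

end Pool.Agent.Helper492.Pinch
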