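import Pool.Agent.Helper492.PinchC

set_option autoImplicit false
set_option linter.unusedSectionVars false

namespace Pool.Agent.Helper492.Pinch

open Matrix Finset

variable {n : Type*} [Fintype n] [DecidableEq n]

theorem isHerm_dR (r : n → ℝ) : (dR r : Matrix n n ℂ).IsHermitian := dR_herm r

/-- the eigenvector matrix -/
noncomputable def evm {X : Matrix n n ℂ} (hX : X.IsHermitian) : Matrix n n ℂ :=
  (hX.eigenvectorUnitary).1

theorem evm1 {X : Matrix n n ℂ} (hX : X.IsHermitian) : (evm hX)ᴴ * evm hX = 1 := by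
  rw [evm, ← Matrix.star_eq_conjTranspose]; exact Unitary.coe_star_mul_self _

theorem evm2 {X : Matrix n n ℂ} (hX : X.IsHermitian) : evm hX * (evm hX)ᴴ = 1 := by
  rw [evm, ← Matrix.star_eq_conjTranspose]; exact Unitary.coe_mul_star_self _

theorem spec {X : Matrix n n ℂ} (hX : X.IsHermitian) :
    evm hX * dR hX.eigenvalues * (evm hX)ᴴ = X := by
  have := hX.spectral_theorem
  rw [Unitary.conjStarAlgAut_apply] at this
  exact this.symm

theorem dg_one {U : Matrix n n ℂ} (hU : U * Uᴴ = 1) (c : ℝ) (i : n) : dg U (fun _ => c) i = c := by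
  have h := normsum U i
  rw [hU, Matrix.one_apply_eq] at h
  have h2 : ∑ b, ‖U i b‖ ^ 2 = 1 := by exact_mod_cast h
  rw [dg, ← Finset.mul_sum, h2, mul_one]

theorem dg_sub {U : Matrix n n ℂ} (a b : n → ℝ) (i : n) :
    dg U (fun j => a j - b j) i = dg U a i - dg U b i := by
  simp only [dg, ← Finset.sum_sub_distrib]
  refine Finset.sum_congr rfl fun j _ => ?_
  ring

theorem Pair.shift {U V : Matrix n n ℂ} {l l' z : n → ℝ} (h : Pair U V l l' z) (c : ℝ) :
    Pair U V (fun i => l i - c) (fun i => l' i - c) z := by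
  refine ⟨h.hU, h.hU', h.hV, h.hV', ?_⟩
  have e : ∀ (W : Matrix n n ℂ) (r : n → ℝ), W * Wᴴ = 1 →
      W * dR (fun i => r i - c) * Wᴴ = W * dR r * Wᴴ - (c : ℂ) • 1 := by
    intro W r hW
    have : dR (fun i => r i - c) = dR r - (c : ℂ) • (1 : Matrix n n ℂ) := by
      rw [dR, dR, ← Matrix.diagonal_one, ← Matrix.diagonal_smul, diagonal_sub]
      congr 1
      funext i
      simp
    rw [this, Matrix.mul_sub, Matrix.sub_mul]
    simp [hW]
  rw [e V l' h.hV, e U l h.hU, sub_sub_sub_cancel_right]
  exact h.diff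

theorem mkPair {X Y : Matrix n n ℂ} (hX : X.IsHermitian) (hY : Y.IsHermitian) {z : n → ℝ}
    (hz : Y - X = dR z) : Pair (evm hX) (evm hY) hX.eigenvalues hY.eigenvalues z := by
  refine ⟨evm2 hX, evm1 hX, evm2 hY, evm1 hY, ?_⟩
  rw [spec, spec, hz]

theorem dg_evm {X : Matrix n n ℂ} (hX : X.IsHermitian) (i : n) :
    dg (evm hX) hX.eigenvalues i = (X i i).re := by
  have h := dg_eq (evm hX) hX.eigenvalues i
  rw [spec] at h
  rw [h, Complex.ofReal_re]

/-- the path -/
theorem hermPath {D : Matrix n n ℂ} (hD : D.IsHermitian) (o : n → ℝ) (t : ℝ) :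
    (D + dR (fun i => t * o i)).IsHermitian := hD.add (isHerm_dR _)

/-- One-sided (Bregman) pinching inequality for the cubic spline. -/
theorem bregman {D : Matrix n n ℂ} (hD : D.IsHermitian) (o : n → ℝ) (c : ℝ)
    (h0 : (D + dR (fun i => 0 * o i)).IsHermitian) (h1 : (D + dR (fun i => 1 * o i)).IsHermitian) :
    ∑ i, f ((D i i).re + o i - c) - ∑ i, f ((D i i).re - c)
        - ∑ i, 3 * g ((D i i).re - c) * o i
      ≤ ∑ i, f (h1.eigenvalues i - c) - ∑ i, f (h0.eigenvalues i - c)
        - ∑ i, o i * dg (evm h0) (fun b => 3 * g (h0.eigenvalues b - c)) i := by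
  set φ : ℝ → ℝ := fun t => ∑ i, f ((hermPath hD o t).eigenvalues i - c) with hφ
  set γ : ℝ → ℝ := fun t => ∑ i, o i *
    dg (evm (hermPath hD o t)) (fun b => 3 * g ((hermPath hD o t).eigenvalues b - c)) i with hγ
  set ρ : ℝ → ℝ := fun t => ∑ i, f ((D i i).re + t * o i - c) with hρ
  set ρ' : ℝ → ℝ := fun t => ∑ i, 3 * g ((D i i).re + t * o i - c) * o i with hρ'
  have hpair : ∀ s t, Pair (evm (hermPath hD o s)) (evm (hermPath hD o t))
      (hermPath hD o s).eigenvalues (hermPath hD o t).eigenvalues (fun i => (t - s) * o i) := by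
    intro s t
    refine mkPair _ _ ?_
    rw [add_sub_add_left_eq_sub, dR, dR, diagonal_sub]
    congr 1
    funext i
    push_cast; ring
  have key := riemann φ γ ρ ρ' ?_ ?_ ?_
  · simp only [hφ, hγ, hρ, hρ'] at key
    simp only [one_mul, zero_mul, add_zero] at key ⊢
    exact key
  · intro s t _ _
    have := ((hpair s t).shift c).klein f (fun x => 3 * g x) tangent
    refine le_trans (le_of_eq ?_) this
    rw [hγ]
    simp only [Finset.mul_sum]
    refine Finset.sum_congr rfl fun i _ => ?_
    ring
  · intro t ht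
    rcases eq_or_lt_of_le ht with h | h
    · rw [← h]
      simp
    · have h2 := ((hpair 0 t).shift c).pinch2
      have e : ∀ s i, dg (evm (hermPath hD o s)) (fun j => (hermPath hD o s).eigenvalues j - c) i
          = (D i i).re + s * o i - c := by
        intro s i
        rw [dg_sub (hermPath hD o s).eigenvalues (fun _ => c), dg_one (evm2 _), dg_evm]
        have : (dR (fun i => s * o i) : Matrix n n ℂ) i i = ((s * o i : ℝ) : ℂ) :=
          Matrix.diagonal_apply_eq _ _
        rw [Matrix.add_apply, this, Complex.add_re, Complex.ofReal_re]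
      simp_rw [e] at h2
      have e3 : ∀ s, γ s = 3 * ∑ i, o i *
          dg (evm (hermPath hD o s)) (fun b => g ((hermPath hD o s).eigenvalues b - c)) i := by
        intro s
        rw [hγ, Finset.mul_sum]
        refine Finset.sum_congr rfl fun i _ => ?_
        simp only [dg]
        rw [Finset.mul_sum, Finset.mul_sum, Finset.mul_sum]
        refine Finset.sum_congr rfl fun b _ => ?_
        ring
      have e4 : ∀ s, ρ' s = 3 * ∑ i, o i * g ((D i i).re + s * o i - c) := by
        intro s
        rw [hρ', Finset.mul_sum]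
        refine Finset.sum_congr rfl fun i _ => ?_
        ring
      rw [e3, e3, e4, e4]
      have h5 : t * (∑ i, o i * g ((D i i).re + t * o i - c)
            - ∑ i, o i * g ((D i i).re + 0 * o i - c))
          ≤ t * (∑ i, o i * dg (evm (hermPath hD o t))
              (fun b => g ((hermPath hD o t).eigenvalues b - c)) i
            - ∑ i, o i * dg (evm (hermPath hD o 0))
              (fun b => g ((hermPath hD o 0).eigenvalues b - c)) i) := by
        rw [← Finset.sum_sub_distrib, ← Finset.sum_sub_distrib, Finset.mul_sum, Finset.mul_sum]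
        refine le_trans (le_of_eq ?_) (h2.trans (le_of_eq ?_))
        · refine Finset.sum_congr rfl fun i _ => ?_
          ring
        · refine Finset.sum_congr rfl fun i _ => ?_
          ring
      have h6 := le_of_mul_le_mul_left h5 h
      linarith
  · intro s t _ _
    rw [hρ, hρ', ← Finset.sum_sub_distrib, Finset.mul_sum]
    refine Finset.sum_le_sum fun i _ => ?_
    have := tangent ((D i i).re + t * o i - c) ((D i i).re + s * o i - c)
    nlinarith [this]

theorem eig_congr {X Y : Matrix n n ℂ} (hX : X.IsHermitian) (hY : Y.IsHermitian) (h : X = Y)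
    (φ : ℝ → ℝ) : ∑ i, φ (hX.eigenvalues i) = ∑ i, φ (hY.eigenvalues i) := by
  subst h; rfl

/-- **Pinching inequality for cubic splines.** -/
theorem pinch3 {D : Matrix n n ℂ} (hD : D.IsHermitian) (o : n → ℝ) (c : ℝ)
    (hp : (D + dR o).IsHermitian) (hm : (D - dR o).IsHermitian) :
    ∑ i, (f ((D i i).re + o i - c) + f ((D i i).re - o i - c) - 2 * f ((D i i).re - c))
      ≤ ∑ i, f (hp.eigenvalues i - c) + ∑ i, f (hm.eigenvalues i - c)
        - 2 * ∑ i, f (hD.eigenvalues i - c) := by
  have b1 := bregman hD o c (hermPath hD o 0) (hermPath hD o 1)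
  have b2 := bregman hD (fun i => - o i) c (hermPath hD _ 0) (hermPath hD _ 1)
  have z0 : ∀ o' : n → ℝ, (D + dR (fun i => 0 * o' i)) = D := by
    intro o'
    have : (dR (fun i => 0 * o' i) : Matrix n n ℂ) = 0 := by
      simp [dR]
    rw [this, add_zero]
  have z1 : ∀ o' : n → ℝ, (D + dR (fun i => 1 * o' i)) = D + dR o' := by
    intro o'
    simp
  have z2 : D + dR (fun i => - o i) = D - dR o := by
    ext i j
    rcases eq_or_ne i j with h | h
    · subst h
      simp [sub_eq_add_neg]
    · simp [Matrix.diagonal_apply_ne _ h]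
  rw [eig_congr (hermPath hD o 1) hp (z1 o) (fun x => f (x - c)),
    eig_congr (hermPath hD o 0) hD (z0 o) (fun x => f (x - c))] at b1
  rw [eig_congr (hermPath hD (fun i => - o i) 1) hm ((z1 _).trans z2) (fun x => f (x - c)),
    eig_congr (hermPath hD (fun i => - o i) 0) hD (z0 _) (fun x => f (x - c))] at b2
  have e : ∑ i, (fun i => - o i) i * dg (evm (hermPath hD (fun i => - o i) 0))
      (fun b => 3 * g ((hermPath hD (fun i => - o i) 0).eigenvalues b - c)) i
      = - ∑ i, o i * dg (evm (hermPath hD o 0))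
      (fun b => 3 * g ((hermPath hD o 0).eigenvalues b - c)) i := by
    have hg : ∀ (X Y : Matrix n n ℂ) (hX : X.IsHermitian) (hY : Y.IsHermitian), X = Y → ∀ i,
        dg (evm hX) (fun b => 3 * g (hX.eigenvalues b - c)) i
          = dg (evm hY) (fun b => 3 * g (hY.eigenvalues b - c)) i := by
      intro X Y hX hY h i
      subst h; rfl
    rw [← Finset.sum_neg_distrib]
    refine Finset.sum_congr rfl fun i _ => ?_
    rw [hg _ _ (hermPath hD (fun i => - o i) 0) (hermPath hD o 0) (by rw [z0, z0]) i]
    ring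
  rw [e] at b2
  have s1 : ∑ i, (f ((D i i).re + o i - c) + f ((D i i).re - o i - c) - 2 * f ((D i i).re - c))
      = ∑ i, f ((D i i).re + o i - c) + ∑ i, f ((D i i).re - o i - c)
        - 2 * ∑ i, f ((D i i).re - c) := by
    rw [Finset.sum_sub_distrib, Finset.sum_add_distrib, Finset.mul_sum]
  have s2 : ∑ i, f ((D i i).re + (fun i => - o i) i - c) = ∑ i, f ((D i i).re - o i - c) := by
    refine Finset.sum_congr rfl fun i _ => ?_
    rw [← sub_eq_add_neg]
  have s3 : ∑ i, 3 * g ((D i i).re - c) * (fun i => - o i) i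
      = - ∑ i, 3 * g ((D i i).re - c) * o i := by
    rw [← Finset.sum_neg_distrib]
    refine Finset.sum_congr rfl fun i _ => ?_
    ring
  rw [s2, s3] at b2
  rw [s1]
  linarith

end Pool.Agent.Helper492.Pinch
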