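import Pool.Agent.Helper492.PinchD

set_option autoImplicit false
set_option linter.unusedSectionVars false

namespace Pool.Agent.Helper492.Pinch

open Finset MeasureTheory Set

theorem f_cont : Continuous f := by
  unfold f; fun_prop

theorem f_nonneg (x : ℝ) : 0 ≤ f x := by
  unfold f; positivity

theorem f_neg {x : ℝ} (hx : x ≤ 0) : f x = 0 := by
  unfold f; rw [max_eq_right hx]; norm_num

theorem f_scale {y : ℝ} (hy : 0 ≤ y) (x : ℝ) : f (y * x) = y ^ 3 * f x := by
  unfold f
  rw [← mul_pow]
  congr 1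
  rcases le_total x 0 with h | h
  · rw [max_eq_right h, max_eq_right (mul_nonpos_of_nonneg_of_nonpos hy h), mul_zero]
  · rw [max_eq_left h, max_eq_left (mul_nonneg hy h)]

theorem J_int {q : ℝ} (hq : 3 < q) (y : ℝ) :
    IntegrableOn (fun s : ℝ => s ^ (q - 4) * f (y - s)) (Ioi 0) := by
  rcases le_or_gt y 0 with hy | hy
  · have : IntegrableOn (fun _ : ℝ => (0 : ℝ)) (Ioi 0) := integrableOn_zero
    refine this.congr_fun ?_ measurableSet_Ioi
    intro s hs
    have hs' : 0 < s := hs
    simp only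
    rw [f_neg (by linarith), mul_zero]
  · have e : Ioi (0 : ℝ) = Ioc 0 y ∪ Ioi y := (Ioc_union_Ioi_eq_Ioi hy.le).symm
    rw [e]
    refine IntegrableOn.union ?_ ?_
    · rw [← intervalIntegrable_iff_integrableOn_Ioc_of_le hy.le]
      refine IntervalIntegrable.mul_continuousOn ?_ ?_
      · exact intervalIntegral.intervalIntegrable_rpow' (by linarith)
      · exact (f_cont.comp (continuous_const.sub continuous_id)).continuousOn
    · have : IntegrableOn (fun _ : ℝ => (0 : ℝ)) (Ioi y) := integrableOn_zero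
      refine this.congr_fun ?_ measurableSet_Ioi
      intro s hs
      have hs' : y < s := hs
      simp only
      rw [f_neg (by linarith), mul_zero]

theorem J_scale {q : ℝ} (hq : 3 < q) {y : ℝ} (hy : 0 ≤ y) :
    ∫ s in Ioi (0 : ℝ), s ^ (q - 4) * f (y - s)
      = y ^ q * ∫ s in Ioi (0 : ℝ), s ^ (q - 4) * f (1 - s) := by
  rcases eq_or_lt_of_le hy with h | h
  · rw [← h, Real.zero_rpow (by linarith), zero_mul]
    rw [setIntegral_congr_fun (g := fun _ => (0 : ℝ)) measurableSet_Ioi]
    · simp
    · intro s hs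
      have hs' : 0 < s := hs
      simp only
      rw [f_neg (by linarith), mul_zero]
  · have h1 := integral_comp_mul_left_Ioi (fun s : ℝ => s ^ (q - 4) * f (y - s)) 0 h
    rw [mul_zero] at h1
    have h2 : ∫ x in Ioi (0 : ℝ), (y * x) ^ (q - 4) * f (y - y * x)
        = y ^ (q - 1) * ∫ s in Ioi (0 : ℝ), s ^ (q - 4) * f (1 - s) := by
      rw [← integral_const_mul]
      refine setIntegral_congr_fun measurableSet_Ioi ?_
      intro s hs
      have hs' : 0 < s := hs
      simp only
      have e1 : y - y * s = y * (1 - s) := by ring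
      rw [e1, f_scale h.le, Real.mul_rpow h.le hs'.le]
      have e2 : y ^ (q - 1) = y ^ (q - 4) * y ^ 3 := by
        rw [← Real.rpow_natCast y 3, ← Real.rpow_add h]
        norm_num
        congr 1
        ring
      rw [e2]
      ring
    rw [h2] at h1
    have e3 : y ^ q = y * y ^ (q - 1) := by
      conv_rhs => lhs; rw [← Real.rpow_one y]
      rw [← Real.rpow_add h]
      congr 1
      ring
    rw [e3, mul_assoc, h1, smul_eq_mul, ← mul_assoc, mul_inv_cancel₀ h.ne', one_mul]

theorem J_pos {q : ℝ} (hq : 3 < q) : 0 < ∫ s in Ioi (0 : ℝ), s ^ (q - 4) * f (1 - s) := by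
  rw [setIntegral_pos_iff_support_of_nonneg_ae]
  · have hsub : Ioo (0 : ℝ) 1 ⊆ Function.support (fun s : ℝ => s ^ (q - 4) * f (1 - s)) ∩ Ioi 0 := by
      intro s hs
      refine ⟨?_, hs.1⟩
      rw [Function.mem_support]
      have h1 : 0 < s ^ (q - 4) := Real.rpow_pos_of_pos hs.1 _
      have h2 : 0 < f (1 - s) := by
        unfold f
        have : 0 < 1 - s := by linarith [hs.2]
        have : 0 < max (1 - s) 0 := lt_max_of_lt_left this
        positivity
      positivity
    refine lt_of_lt_of_le ?_ (measure_mono hsub)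
    simp
  · refine (ae_restrict_iff' measurableSet_Ioi).2 (Filter.Eventually.of_forall ?_)
    intro s hs
    have hs' : 0 < s := hs
    exact mul_nonneg (Real.rpow_nonneg hs'.le _) (f_nonneg _)
  · exact J_int hq 1

/-- Passing from cubic splines to powers. -/
theorem spline_to_pow {κ : Type*} [Fintype κ] {q : ℝ} (hq : 3 < q) (c y : κ → ℝ)
    (hy : ∀ k, 0 ≤ y k) (h : ∀ s : ℝ, 0 < s → 0 ≤ ∑ k, c k * f (y k - s)) :
    0 ≤ ∑ k, c k * y k ^ q := by
  have h1 : 0 ≤ ∫ s in Ioi (0 : ℝ), ∑ k, c k * (s ^ (q - 4) * f (y k - s)) := by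
    refine setIntegral_nonneg measurableSet_Ioi ?_
    intro s hs
    have hs' : 0 < s := hs
    have e : ∑ k, c k * (s ^ (q - 4) * f (y k - s)) = s ^ (q - 4) * ∑ k, c k * f (y k - s) := by
      rw [Finset.mul_sum]
      refine Finset.sum_congr rfl fun k _ => ?_
      ring
    rw [e]
    exact mul_nonneg (Real.rpow_nonneg hs'.le _) (h s hs')
  rw [integral_finsetSum] at h1
  · simp_rw [integral_const_mul] at h1
    have e : ∑ k, c k * ∫ s in Ioi (0 : ℝ), s ^ (q - 4) * f (y k - s)
        = (∑ k, c k * y k ^ q) * ∫ s in Ioi (0 : ℝ), s ^ (q - 4) * f (1 - s) := by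
      rw [Finset.sum_mul]
      refine Finset.sum_congr rfl fun k _ => ?_
      rw [J_scale hq (hy k)]
      ring
    rw [e] at h1
    exact nonneg_of_mul_nonneg_left h1 (J_pos hq)
  · intro k _
    exact (J_int hq (y k)).const_mul _

end Pool.Agent.Helper492.Pinch
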