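import Pool.Agent.Helper492.PinchE

set_option autoImplicit false
set_option linter.unusedSectionVars false

namespace Pool.Agent.Helper492.Pinch

open Finset Matrix
open scoped ComplexOrder

variable {n : Type*} [Fintype n] [DecidableEq n]

theorem diag_re_nonneg {X : Matrix n n ℂ} (hX : X.PosSemidef) (i : n) : 0 ≤ (X i i).re := by
  have h := hX.diag_nonneg (i := i)
  exact (Complex.le_def.1 h).1

/-- **Pinching inequality for powers.** -/
theorem pinchPow {D : Matrix n n ℂ} (hD : D.IsHermitian) (o : n → ℝ)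
    (hp : (D + dR o).PosSemidef) (hm : (D - dR o).PosSemidef) {q : ℝ} (hq : 3 < q) :
    ∑ i, (((D i i).re + o i) ^ q + ((D i i).re - o i) ^ q - 2 * ((D i i).re) ^ q)
      ≤ ∑ i, (hp.1.eigenvalues i) ^ q + ∑ i, (hm.1.eigenvalues i) ^ q
        - 2 * ∑ i, (hD.eigenvalues i) ^ q := by
  have hDp : D.PosSemidef := by
    have h1 := (hp.add hm)
    have h2 : D + dR o + (D - dR o) = (2 : ℝ) • D := by
      rw [two_smul]; abel
    rw [h2] at h1
    have h3 := h1.smul (show (0 : ℝ) ≤ 1 / 2 by norm_num)
    rw [smul_smul] at h3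
    norm_num at h3
    exact h3
  have ho : ∀ i, (dR o : Matrix n n ℂ) i i = ((o i : ℝ) : ℂ) := fun i =>
    Matrix.diagonal_apply_eq _ _
  have hd : ∀ i, 0 ≤ (D i i).re := diag_re_nonneg hDp
  have hdp : ∀ i, 0 ≤ (D i i).re + o i := by
    intro i
    have := diag_re_nonneg hp i
    rw [Matrix.add_apply, ho, Complex.add_re, Complex.ofReal_re] at this
    exact this
  have hdm : ∀ i, 0 ≤ (D i i).re - o i := by
    intro i
    have := diag_re_nonneg hm i
    rw [Matrix.sub_apply, ho, Complex.sub_re, Complex.ofReal_re] at this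
    exact this
  let y : Fin 6 × n → ℝ := fun k =>
    (![hp.1.eigenvalues k.2, hm.1.eigenvalues k.2, hD.eigenvalues k.2,
      (D k.2 k.2).re + o k.2, (D k.2 k.2).re - o k.2, (D k.2 k.2).re] : Fin 6 → ℝ) k.1
  let c : Fin 6 × n → ℝ := fun k => (![1, 1, -2, -1, -1, 2] : Fin 6 → ℝ) k.1
  have hexp : ∀ φ : ℝ → ℝ, ∑ k, c k * φ (y k) =
      ∑ i, φ (hp.1.eigenvalues i) + ∑ i, φ (hm.1.eigenvalues i)
        - 2 * ∑ i, φ (hD.eigenvalues i)
      - ∑ i, (φ ((D i i).re + o i) + φ ((D i i).re - o i) - 2 * φ ((D i i).re)) := by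
    intro φ
    rw [Fintype.sum_prod_type]
    simp only [Fin.sum_univ_six, c, y]
    simp only [Matrix.cons_val]
    simp only [Finset.sum_sub_distrib, Finset.sum_add_distrib, Finset.mul_sum]
    simp only [neg_mul, one_mul, Finset.sum_neg_distrib]
    ring
  have hy : ∀ k, 0 ≤ y k := by
    rintro ⟨k, i⟩
    fin_cases k
    · exact hp.eigenvalues_nonneg i
    · exact hm.eigenvalues_nonneg i
    · exact hDp.eigenvalues_nonneg i
    · exact hdp i
    · exact hdm i
    · exact hd i
  have key := spline_to_pow hq c y hy ?_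
  · rw [hexp (fun x => x ^ q)] at key
    linarith
  · intro s _
    rw [hexp (fun x => f (x - s))]
    have := pinch3 hD o s hp.1 hm.1
    linarith

/-- scalar inequality -/
theorem scalar {q : ℝ} (hq : 2 ≤ q) {d o : ℝ} (hp : 0 ≤ d + o) (hm : 0 ≤ d - o) :
    ((2 : ℝ) ^ q - 2) * |o| ^ q ≤ (d + o) ^ q + (d - o) ^ q - 2 * d ^ q := by
  have hd : |o| ≤ d := by rw [abs_le]; constructor <;> linarith
  have hsym : (d + o) ^ q + (d - o) ^ q - 2 * d ^ q
      = (d + |o|) ^ q + (d - |o|) ^ q - 2 * d ^ q := by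
    rcases le_total 0 o with h | h
    · rw [abs_of_nonneg h]
    · rw [abs_of_nonpos h]; ring_nf
  rw [hsym]
  generalize hw : |o| = w at *
  have hw0 : 0 ≤ w := by rw [← hw]; exact abs_nonneg _
  have hmono : MonotoneOn (fun x : ℝ => (x + w) ^ q + (x - w) ^ q - 2 * x ^ q) (Set.Ici w) := by
    refine monotoneOn_of_deriv_nonneg (convex_Ici w) ?_ ?_ ?_
    · refine ContinuousOn.sub (ContinuousOn.add ?_ ?_) (ContinuousOn.mul continuousOn_const ?_)
      · exact (continuousOn_id.add continuousOn_const).rpow_const (fun x _ => Or.inr (by linarith))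
      · exact (continuousOn_id.sub continuousOn_const).rpow_const (fun x _ => Or.inr (by linarith))
      · exact continuousOn_id.rpow_const (fun x _ => Or.inr (by linarith))
    · intro x hx
      refine DifferentiableAt.differentiableWithinAt ?_
      refine DifferentiableAt.sub (DifferentiableAt.add ?_ ?_) (DifferentiableAt.const_mul ?_ _)
      · exact (differentiableAt_id.add_const w).rpow_const (Or.inr (by linarith))
      · exact (differentiableAt_id.sub_const w).rpow_const (Or.inr (by linarith))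
      · exact differentiableAt_id.rpow_const (Or.inr (by linarith))
    · intro x hx
      rw [interior_Ici] at hx
      have hx' : w < x := hx
      have h1 : HasDerivAt (fun x : ℝ => (x + w) ^ q + (x - w) ^ q - 2 * x ^ q)
          (1 * q * (x + w) ^ (q - 1) + 1 * q * (x - w) ^ (q - 1) - 2 * (1 * q * x ^ (q - 1))) x := by
        refine HasDerivAt.sub (HasDerivAt.add ?_ ?_) (HasDerivAt.const_mul _ ?_)
        · exact ((hasDerivAt_id x).add_const w).rpow_const (Or.inr (by linarith))
        · exact ((hasDerivAt_id x).sub_const w).rpow_const (Or.inr (by linarith))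
        · exact (hasDerivAt_id x).rpow_const (Or.inr (by linarith))
      rw [h1.deriv]
      have h2 := (convexOn_rpow (show (1 : ℝ) ≤ q - 1 by linarith)).2
        (show x + w ∈ Set.Ici (0 : ℝ) from by simp only [Set.mem_Ici]; linarith)
        (show x - w ∈ Set.Ici (0 : ℝ) from by simp only [Set.mem_Ici]; linarith)
        (show (0 : ℝ) ≤ 1 / 2 by norm_num) (show (0 : ℝ) ≤ 1 / 2 by norm_num) (by norm_num)
      simp only [smul_eq_mul] at h2
      rw [show 1 / 2 * (x + w) + 1 / 2 * (x - w) = x by ring] at h2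
      nlinarith
  have h := hmono (Set.mem_Ici.2 le_rfl) (Set.mem_Ici.2 hd) hd
  simp only at h
  rw [sub_self, Real.zero_rpow (by linarith), ← two_mul, Real.mul_rpow (by norm_num) hw0] at h
  linarith

/-- Pinching inequality, final form. -/
theorem pinchFinal {D : Matrix n n ℂ} (hD : D.IsHermitian) (o : n → ℝ)
    (hp : (D + dR o).PosSemidef) (hm : (D - dR o).PosSemidef) {q : ℝ} (hq : 3 < q) :
    ((2 : ℝ) ^ q - 2) * ∑ i, |o i| ^ q
      ≤ ∑ i, (hp.1.eigenvalues i) ^ q + ∑ i, (hm.1.eigenvalues i) ^ q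
        - 2 * ∑ i, (hD.eigenvalues i) ^ q := by
  have ho : ∀ i, (dR o : Matrix n n ℂ) i i = ((o i : ℝ) : ℂ) := fun i =>
    Matrix.diagonal_apply_eq _ _
  have hdp : ∀ i, 0 ≤ (D i i).re + o i := by
    intro i
    have := diag_re_nonneg hp i
    rw [Matrix.add_apply, ho, Complex.add_re, Complex.ofReal_re] at this
    exact this
  have hdm : ∀ i, 0 ≤ (D i i).re - o i := by
    intro i
    have := diag_re_nonneg hm i
    rw [Matrix.sub_apply, ho, Complex.sub_re, Complex.ofReal_re] at this
    exact this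
  refine le_trans ?_ (pinchPow hD o hp hm hq)
  rw [Finset.mul_sum]
  exact Finset.sum_le_sum fun i _ => scalar (by linarith) (hdp i) (hdm i)

end Pool.Agent.Helper492.Pinch
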