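import Pool.Agent.Helper492.PinchF
import Pool.Agent.Helper575.Mc

set_option autoImplicit false
set_option linter.unusedSectionVars false

namespace Pool.Agent.Helper492.Pinch

open Finset Matrix
open scoped ComplexOrder

variable {n m : Type*} [Fintype n] [DecidableEq n] [Fintype m] [DecidableEq m]

theorem sum_roots (φ : ℝ → ℝ) {A : Matrix n n ℂ} (hA : A.IsHermitian) :
    ∑ i, φ (hA.eigenvalues i) = (A.charpoly.roots.map (fun z : ℂ => φ z.re)).sum := by
  rw [hA.roots_charpoly_eq_eigenvalues, Multiset.map_map, Finset.sum_eq_multiset_sum]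
  congr 1

theorem eig_of_charpoly (φ : ℝ → ℝ) {A B : Matrix n n ℂ} (hA : A.IsHermitian)
    (hB : B.IsHermitian) (h : A.charpoly = B.charpoly) :
    ∑ i, φ (hA.eigenvalues i) = ∑ i, φ (hB.eigenvalues i) := by
  rw [sum_roots φ hA, sum_roots φ hB, h]

theorem eig_blocks (φ : ℝ → ℝ) {P : Matrix n n ℂ} {Q : Matrix m m ℂ} (hP : P.IsHermitian)
    (hQ : Q.IsHermitian) (hPQ : (fromBlocks P 0 0 Q).IsHermitian) :
    ∑ i, φ (hPQ.eigenvalues i) = ∑ i, φ (hP.eigenvalues i) + ∑ i, φ (hQ.eigenvalues i) := by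
  rw [sum_roots φ hP, sum_roots φ hQ, sum_roots φ hPQ, Matrix.charpoly_fromBlocks_zero₁₂,
    Polynomial.roots_mul (mul_ne_zero (charpoly_monic _).ne_zero (charpoly_monic _).ne_zero),
    Multiset.map_add, Multiset.sum_add]

theorem eig_zero (φ : ℝ → ℝ) (h0 : φ 0 = 0) (hZ : (0 : Matrix n n ℂ).IsHermitian) :
    ∑ i, φ (hZ.eigenvalues i) = 0 := by
  refine Finset.sum_eq_zero fun i _ => ?_
  have := (Matrix.IsHermitian.eigenvalues_eq_zero_iff hZ).2 rfl
  rw [this]; exact h0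


open Pool.Agent.Helper575.Mc Pool.Agent.Helper575.Tr in
/-- Main inequality (eigenvalue form), for all `q > 3`. -/
theorem main_eig {A B : Matrix n n ℂ} (hA : A.PosDef) (hB : B.PosDef) {q : ℝ} (hq : 3 < q)
    (hAB : (A + B).PosDef) (hM : (pw A (1 / 2) * B * pw A (1 / 2)).PosDef) :
    ∑ i, (hA.1.eigenvalues i) ^ q + ∑ i, (hB.1.eigenvalues i) ^ q
      + ((2 : ℝ) ^ q - 2) * ∑ i, (hM.1.eigenvalues i) ^ (q / 2)
      ≤ ∑ i, (hAB.1.eigenvalues i) ^ q := by
  set X := pw A (1 / 2) with hX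
  set Y := pw B (1 / 2) with hY
  have hXX : X * X = A := half_mul_half hA
  have hYY : Y * Y = B := half_mul_half hB
  have hXh : Xᴴ = X := pw_herm _ _
  have hYh : Yᴴ = Y := pw_herm _ _
  set D : Matrix (n ⊕ n) (n ⊕ n) ℂ := fromBlocks A 0 0 B with hDdef
  set O : Matrix (n ⊕ n) (n ⊕ n) ℂ := fromBlocks 0 (X * Y) (Y * X) 0 with hOdef
  have hD : D.IsHermitian := by
    rw [hDdef, IsHermitian, fromBlocks_conjTranspose, hA.1.eq, hB.1.eq]
    simp
  have hO : O.IsHermitian := by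
    rw [hOdef, IsHermitian, fromBlocks_conjTranspose, conjTranspose_mul, conjTranspose_mul,
      hXh, hYh]
    simp
  set W : Matrix (n ⊕ n) (n ⊕ n) ℂ := fromBlocks X 0 Y 0 with hW
  set W' : Matrix (n ⊕ n) (n ⊕ n) ℂ := fromBlocks X 0 (-Y) 0 with hW'
  have hWW : W * Wᴴ = D + O := by
    rw [hW, fromBlocks_conjTranspose, fromBlocks_multiply, hDdef, hOdef, fromBlocks_add, hXh, hYh]
    simp [hXX, hYY]
  have hWW' : W' * W'ᴴ = D - O := by
    rw [hW', fromBlocks_conjTranspose, fromBlocks_multiply, hDdef, hOdef, sub_eq_add_neg,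
      fromBlocks_neg, fromBlocks_add, conjTranspose_neg, hXh, hYh]
    simp [hXX, hYY]
  have hW1 : Wᴴ * W = fromBlocks (A + B) 0 0 0 := by
    rw [hW, fromBlocks_conjTranspose, fromBlocks_multiply, hXh, hYh]
    simp [hXX, hYY]
  have hW2 : W'ᴴ * W' = fromBlocks (A + B) 0 0 0 := by
    rw [hW', fromBlocks_conjTranspose, fromBlocks_multiply, conjTranspose_neg, hXh, hYh]
    simp [hXX, hYY]
  set V := evm hO with hV
  have hV1 : Vᴴ * V = 1 := evm1 hO
  have hV2 : V * Vᴴ = 1 := evm2 hO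
  set o := hO.eigenvalues with ho
  have hVO : Vᴴ * O * V = dR o := by
    have h := spec hO
    conv_lhs => rw [← h]
    calc Vᴴ * (V * dR o * Vᴴ) * V = (Vᴴ * V) * dR o * (Vᴴ * V) := by
          simp only [Matrix.mul_assoc]
      _ = dR o := by rw [hV1, Matrix.one_mul, Matrix.mul_one]
  set D' := Vᴴ * D * V with hD'
  have hD'h : D'.IsHermitian := isHermitian_conjTranspose_mul_mul V hD
  have hDp : D' + dR o = Vᴴ * (D + O) * V := by
    rw [← hVO, Matrix.mul_add, Matrix.add_mul]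
  have hDm : D' - dR o = Vᴴ * (D - O) * V := by
    rw [← hVO, Matrix.mul_sub, Matrix.sub_mul]
  have hcp : ∀ M : Matrix (n ⊕ n) (n ⊕ n) ℂ, (Vᴴ * M * V).charpoly = M.charpoly := by
    intro M
    rw [Matrix.mul_assoc, charpoly_mul_comm, Matrix.mul_assoc, hV2, Matrix.mul_one]
  have hpPSD : (D' + dR o).PosSemidef := by
    rw [hDp, ← hWW]
    exact (posSemidef_self_mul_conjTranspose W).conjTranspose_mul_mul_same V
  have hmPSD : (D' - dR o).PosSemidef := by
    rw [hDm, ← hWW']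
    exact (posSemidef_self_mul_conjTranspose W').conjTranspose_mul_mul_same V
  have key := pinchFinal hD'h o hpPSD hmPSD hq
  have hZ : (0 : Matrix n n ℂ).IsHermitian := isHermitian_zero
  have hE : (fromBlocks (A + B) 0 0 (0 : Matrix n n ℂ)).IsHermitian := by
    rw [← hW1]; exact isHermitian_conjTranspose_mul_self W
  have h0 : (fun x : ℝ => x ^ q) 0 = 0 := Real.zero_rpow (by linarith)
  have eE : ∑ i, (hE.eigenvalues i) ^ q = ∑ i, (hAB.1.eigenvalues i) ^ q := by
    have h1 := eig_blocks (fun x : ℝ => x ^ q) hAB.1 hZ hE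
    rw [eig_zero (fun x : ℝ => x ^ q) h0 hZ, add_zero] at h1
    exact h1
  have ep : ∑ i, (hpPSD.1.eigenvalues i) ^ q = ∑ i, (hAB.1.eigenvalues i) ^ q := by
    rw [← eE]
    refine eig_of_charpoly (fun x : ℝ => x ^ q) _ _ ?_
    rw [hDp, hcp, ← hWW, charpoly_mul_comm, hW1]
  have em : ∑ i, (hmPSD.1.eigenvalues i) ^ q = ∑ i, (hAB.1.eigenvalues i) ^ q := by
    rw [← eE]
    refine eig_of_charpoly (fun x : ℝ => x ^ q) _ _ ?_
    rw [hDm, hcp, ← hWW', charpoly_mul_comm, hW2]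
  have eD : ∑ i, (hD'h.eigenvalues i) ^ q
      = ∑ i, (hA.1.eigenvalues i) ^ q + ∑ i, (hB.1.eigenvalues i) ^ q := by
    have h1 := eig_blocks (fun x : ℝ => x ^ q) hA.1 hB.1 hD
    rw [← h1]
    exact eig_of_charpoly (fun x : ℝ => x ^ q) _ _ (hcp D)
  have hOO : (O * O).IsHermitian := by
    have := isHermitian_conjTranspose_mul_self O
    rwa [hO.eq] at this
  have hOO2 : O * O = fromBlocks (X * B * X) 0 0 (Y * A * Y) := by
    rw [hOdef, fromBlocks_multiply]
    have e1 : X * Y * (Y * X) = X * B * X := by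
      rw [← hYY]; simp only [Matrix.mul_assoc]
    have e2 : Y * X * (X * Y) = Y * A * Y := by
      rw [← hXX]; simp only [Matrix.mul_assoc]
    rw [e1, e2]
    simp
  have hM2 : (Y * A * Y).IsHermitian := by
    have := isHermitian_conjTranspose_mul_mul Y hA.1
    rwa [hYh] at this
  have eO : ∑ i, |o i| ^ q = 2 * ∑ i, (hM.1.eigenvalues i) ^ (q / 2) := by
    have h1 : ∀ i, |o i| ^ q = (fun x : ℝ => x ^ (q / 2)) (o i * o i) := by
      intro i
      simp only
      rw [← abs_mul_abs_self, Real.mul_rpow (abs_nonneg _) (abs_nonneg _), ← Real.rpow_add_of_nonneg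
        (abs_nonneg _) (by linarith) (by linarith)]
      congr 1
      ring
    simp_rw [h1]
    have h2 := sq_sum (fun x : ℝ => x ^ (q / 2)) hO hOO
    rw [← h2]
    have hb : (fromBlocks (X * B * X) 0 0 (Y * A * Y)).IsHermitian := hOO2 ▸ hOO
    have h3 := eig_of_charpoly (fun x : ℝ => x ^ (q / 2)) hOO hb (by rw [hOO2])
    rw [h3, eig_blocks (fun x : ℝ => x ^ (q / 2)) hM.1 hM2 hb]
    have h4 := eig_of_charpoly (fun x : ℝ => x ^ (q / 2)) hM2 hM.1 ?_
    · rw [h4, two_mul]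
    · have e2 : Y * A * Y = (Y * X) * (X * Y) := by
        rw [← hXX]; simp only [Matrix.mul_assoc]
      have e1 : (X * Y) * (Y * X) = X * B * X := by
        rw [← hYY]; simp only [Matrix.mul_assoc]
      rw [e2, charpoly_mul_comm, e1]
  rw [ep, em, eD, eO] at key
  linarith

end Pool.Agent.Helper492.Pinch
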